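import Mathlib
import Pool.Agent.LinesCross.Plane
import Pool.Agent.Helper976.ELSS.Plane2
import Pool.Agent.Helper976.ELSS.Arith
import Pool.Agent.Helper976.ELSS.Arith2

namespace Pool.Agent.Results.MP_62448f_co.SharperCrossings

/-- A geometric graph: a finite set `pts` of points of the plane, no three of them collinear,
and a finite set `edges` of unordered pairs of distinct points of `pts`. -/
structure GeomGraph where
  pts : Finset (ℝ × ℝ)
  no_three_collinear : ∀ p ∈ pts, ∀ q ∈ pts, ∀ r ∈ pts, p ≠ q → p ≠ r → q ≠ r →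
    ¬ Collinear ℝ ({p, q, r} : Set (ℝ × ℝ))
  edges : Finset (Sym2 (ℝ × ℝ))
  edge_mem : ∀ e ∈ edges, ∀ p ∈ e, p ∈ pts
  edge_ne : ∀ e ∈ edges, ¬ e.IsDiag

/-- A straight line of the plane. -/
def IsLine (l : Set (ℝ × ℝ)) : Prop :=
  ∃ a b c : ℝ, (a ≠ 0 ∨ b ≠ 0) ∧ l = {x | a * x.1 + b * x.2 = c}

/-- The closed straight segment drawn for an edge. -/
def drawn (e : Sym2 (ℝ × ℝ)) : Set (ℝ × ℝ) := convexHull ℝ {p | p ∈ e}

open Classical in
/-- The number of edges of `G` that the set `l` meets. -/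
noncomputable def GeomGraph.met (G : GeomGraph) (l : Set (ℝ × ℝ)) : ℕ :=
  (G.edges.filter (fun e => (drawn e ∩ l).Nonempty)).card

open Pool.Agent.LinesCross

theorem allLines_of (G : GeomGraph) (t : ℕ) (_ht : 1 ≤ t)
    (h : ¬ ∃ l, IsLine l ∧ (∀ p ∈ G.pts, p ∉ l) ∧ t ≤ G.met l) :
    AllLinesLe G.pts G.edges (t - 1) := by
  classical
  intro a b c hab hc
  push Not at h
  have h1 := h {x | a * x.1 + b * x.2 = c} ⟨a, b, c, hab, rfl⟩ (fun p hp hp' => hc p hp hp')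
  refine le_trans (Finset.card_le_card ?_) (Nat.le_sub_one_of_lt h1)
  intro e he
  rw [Finset.mem_filter] at he ⊢
  obtain ⟨he, u, v, rfl, hu, hv⟩ := he
  refine ⟨he, ?_⟩
  have hset : {p : ℝ × ℝ | p ∈ s(u, v)} = {u, v} := by ext p; simp
  unfold drawn
  rw [hset, convexHull_pair]
  set Fu := a * u.1 + b * u.2 with hFu
  set Fv := a * v.1 + b * v.2 with hFv
  have hd : 0 < Fv - Fu := by linarith
  refine ⟨((Fv - c) / (Fv - Fu)) • u + ((c - Fu) / (Fv - Fu)) • v,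
    ⟨(Fv - c) / (Fv - Fu), (c - Fu) / (Fv - Fu), div_nonneg (by linarith) hd.le,
      div_nonneg (by linarith) hd.le, by field_simp; ring, rfl⟩, ?_⟩
  show a * _ + b * _ = c
  simp only [Prod.fst_add, Prod.smul_fst, Prod.snd_add, Prod.smul_snd, smul_eq_mul]
  have : a * ((Fv - c) / (Fv - Fu) * u.1 + (c - Fu) / (Fv - Fu) * v.1) +
      b * ((Fv - c) / (Fv - Fu) * u.2 + (c - Fu) / (Fv - Fu) * v.2) =
      ((Fv - c) * Fu + (c - Fu) * Fv) / (Fv - Fu) := by
    rw [hFu, hFv]; ring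
  rw [this]
  field_simp
  ring

theorem n_large (G : GeomGraph) (k : ℕ) (he : G.pts.card * k < G.edges.card) :
    2 * k + 2 ≤ G.pts.card := by
  classical
  obtain ⟨t, ht⟩ := exists_shear G.pts
  have h1 := card_le_half G.pts G.edges (fun p => p.1 + t * p.2) ht G.edge_mem G.edge_ne
  have h2 := W_self_le (Adj G.edges) (Adj_self _ G.edge_ne) (Adj_le _) G.pts
  by_contra hcon
  push Not at hcon
  have h3 : G.pts.card * G.pts.card ≤ G.pts.card * (2 * k + 1) := Nat.mul_le_mul_left _ (by omega)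
  have h4 : G.pts.card * (2 * k + 1) = 2 * (G.pts.card * k) + G.pts.card := by ring
  omega

/-- The basic inequality. -/
theorem star (G : GeomGraph) (K : ℕ) (hK : AllLinesLe G.pts G.edges K) (hn : 2 ≤ G.pts.card)
    (m : ℕ) (hm : 1 ≤ m) :
    4 * m * G.edges.card + 2 * m * G.pts.card ≤
      2 * m ^ 2 * K + m * (m - 1) + 2 * G.pts.card ^ 2 := by
  have h := plane_bound G.pts G.edges G.no_three_collinear G.edge_mem G.edge_ne K hK
    (G.pts.card / 2) (G.pts.card - G.pts.card / 2) (by omega) (by omega) (by omega) m hm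
  obtain ⟨m', rfl⟩ : ∃ m', m = m' + 1 := ⟨m - 1, by omega⟩
  have e1 : m' + 1 - 1 = m' := by omega
  have e2 : 2 * (m' + 1) - 1 = 2 * m' + 1 := by omega
  rw [e1, e2] at h
  rw [e1]
  generalize G.pts.card = n at *
  generalize G.edges.card = e at *
  obtain ⟨r, hr⟩ : ∃ r, m' * (m' + 1) = 2 * r := by
    have := Nat.even_mul_succ_self m'
    obtain ⟨r, hr⟩ := this
    exact ⟨r, by rw [hr]; ring⟩
  obtain ⟨a, δ, hδ, hn'⟩ : ∃ a δ, δ ≤ 1 ∧ n = 2 * a + δ := ⟨n / 2, n % 2, by omega, by omega⟩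
  have e3 : n / 2 = a := by omega
  have e4 : n - n / 2 = a + δ := by omega
  rw [e4, e3] at h
  -- reduce to half integers
  have key : 2 * (m' + 1) * e + (m' + 1) * n ≤ (m' + 1) ^ 2 * K + r + n ^ 2 := by
    have h5 : (m' + 1) * (2 * (m' + 1) * e + (m' + 1) * n) <
        (m' + 1) * ((m' + 1) ^ 2 * K + r + n ^ 2 + 1) := by
      have hδ2 : δ * δ ≤ 1 := by nlinarith
      subst hn'
      have h6 : 2 * ((m' + 1) * r) = (m' + 1) * (m' * (m' + 1)) := by rw [hr]; ring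
      have h7 : δ * δ * m' ≤ m' := by nlinarith
      zify at *
      nlinarith
    exact Nat.lt_succ_iff.1 (Nat.lt_of_mul_lt_mul_left h5)
  have e5 : (m' + 1) * m' = 2 * r := by rw [← hr]; ring
  rw [e5]
  nlinarith

/-- If `(2n - m(2k+1))² < (4k+3)m² + 10m` for some `m`, the conjecture holds for `(n, k)`. -/
theorem conj_of_m (G : GeomGraph) (k : ℕ) (hk : 1 ≤ k) (he : G.pts.card * k < G.edges.card)
    (m : ℕ) (hm : 1 ≤ m)
    (h : (2 * (G.pts.card : ℤ) - m * (2 * k + 1)) ^ 2 < (4 * k + 3) * m ^ 2 + 10 * m) :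
    ∃ l, IsLine l ∧ (∀ p ∈ G.pts, p ∉ l) ∧ k ^ 2 ≤ G.met l := by
  by_contra hcon
  have hn := n_large G k he
  have hk2 : 1 ≤ k ^ 2 := Nat.one_le_pow _ _ hk
  have h1 := star G (k ^ 2 - 1) (allLines_of G (k ^ 2) hk2 hcon) (by omega) m hm
  zify [hk2, hm] at h1 he
  have hm' : (1 : ℤ) ≤ m := by exact_mod_cast hm
  nlinarith

theorem exists_m (n k : ℕ) (hk : 1 ≤ k) (h : k ^ 3 ≤ 4 * n ^ 2) :
    ∃ m : ℕ, 1 ≤ m ∧ (2 * (n : ℤ) - m * (2 * k + 1)) ^ 2 < (4 * k + 3) * m ^ 2 + 10 * m := by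
  set s : ℝ := Real.sqrt (4 * k + 3) with hs
  have hk1 : (1 : ℝ) ≤ k := by exact_mod_cast hk
  have hs2 : s ^ 2 = 4 * k + 3 := Real.sq_sqrt (by positivity)
  have hs0 : 0 < s := Real.sqrt_pos.2 (by positivity)
  have hD1 : 0 < 2 * (k : ℝ) + 1 + s := by positivity
  have hD2 : 0 < 2 * (k : ℝ) + 1 - s := by
    have : s < 2 * k + 1 := by
      apply lt_of_pow_lt_pow_left₀ 2 (by positivity)
      rw [hs2]; nlinarith
    linarith
  have hh : (k : ℝ) ^ 3 ≤ 4 * n ^ 2 := by exact_mod_cast h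
  have hkey : 4 * (k : ℝ) ^ 2 - 2 < 4 * n * s := by
    apply lt_of_pow_lt_pow_left₀ 2 (by positivity)
    have : (4 * (n : ℝ) * s) ^ 2 = 4 * (4 * n ^ 2) * (4 * k + 3) := by rw [← hs2]; ring
    rw [this]
    have h2 : 4 * (k : ℝ) ^ 3 * (4 * k + 3) ≤ 4 * (4 * n ^ 2) * (4 * k + 3) := by
      apply mul_le_mul_of_nonneg_right _ (by positivity)
      linarith
    have h3 : (1 : ℝ) ≤ k ^ 2 := by nlinarith
    have h4 : (1 : ℝ) ≤ k ^ 3 := by nlinarith
    nlinarith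
  set m : ℕ := ⌊2 * (n : ℝ) / (2 * k + 1 + s)⌋₊ + 1 with hm
  refine ⟨m, by omega, ?_⟩
  have hm1 : 2 * (n : ℝ) / (2 * k + 1 + s) < m := by
    rw [hm]; push_cast; exact Nat.lt_floor_add_one _
  have hm2 : (m : ℝ) ≤ 2 * (n : ℝ) / (2 * k + 1 + s) + 1 := by
    rw [hm]; push_cast
    have := Nat.floor_le (a := 2 * (n : ℝ) / (2 * k + 1 + s)) (by positivity)
    linarith
  have hm0 : (0 : ℝ) < m := by rw [hm]; positivity
  have a1 : 2 * (n : ℝ) < m * (2 * k + 1 + s) := by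
    rwa [div_lt_iff₀ hD1] at hm1
  have a2 : ((m : ℝ) - 1) * (2 * k + 1 + s) ≤ 2 * n := by
    have : (m : ℝ) - 1 ≤ 2 * (n : ℝ) / (2 * k + 1 + s) := by linarith
    rwa [le_div_iff₀ hD1] at this
  have a3 : (m : ℝ) * (2 * k + 1 - s) < 2 * n := by
    -- multiply by D1
    have e1 : (2 * (k : ℝ) + 1 + s) * (2 * k + 1 - s) = 4 * k ^ 2 - 2 := by
      have : (2 * (k : ℝ) + 1 + s) * (2 * k + 1 - s) = (2 * k + 1) ^ 2 - s ^ 2 := by ring
      rw [this, hs2]; ring
    have e2 : (m : ℝ) * (2 * k + 1 - s) * (2 * k + 1 + s) < 2 * n * (2 * k + 1 + s) := by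
      have e3 : ((m : ℝ) - 1) * (2 * k + 1 + s) * (2 * k + 1 - s) ≤ 2 * n * (2 * k + 1 - s) :=
        mul_le_mul_of_nonneg_right a2 hD2.le
      have e4 : (m : ℝ) * (2 * k + 1 - s) * (2 * k + 1 + s) =
          ((m : ℝ) - 1) * (2 * k + 1 + s) * (2 * k + 1 - s) +
          (2 * (k : ℝ) + 1 + s) * (2 * k + 1 - s) := by ring
      rw [e4, e1]
      linarith
    exact lt_of_mul_lt_mul_right e2 hD1.le
  have b1 : (2 * (n : ℝ) - m * (2 * k + 1)) ^ 2 < (m * s) ^ 2 := by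
    apply sq_lt_sq'
    · linarith
    · linarith
  have b2 : (2 * (n : ℝ) - m * (2 * k + 1)) ^ 2 < (4 * k + 3) * m ^ 2 + 10 * m := by
    have : ((m : ℝ) * s) ^ 2 = (4 * k + 3) * m ^ 2 := by rw [mul_pow, hs2]; ring
    rw [this] at b1
    linarith
  exact_mod_cast b2

theorem small_cases : ∀ k : ℕ, k < 27 → ∀ n : ℕ, n < 67 → 2 * k + 2 ≤ n → k ^ 3 ≤ 4 * n ^ 2 ∨
    ∃ m ∈ ([2, 3] : List ℕ), (2 * (n : ℤ) - (m : ℤ) * (2 * (k : ℤ) + 1)) ^ 2 <
      (4 * (k : ℤ) + 3) * (m : ℤ) ^ 2 + 10 * (m : ℤ) := by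
  decide +kernel

theorem main_aux (G : GeomGraph) (k : ℕ) (hk : 1 ≤ k) (he : G.pts.card * k < G.edges.card) :
    (k ≤ 26 ∨ k ^ 3 ≤ 4 * G.pts.card ^ 2 →
      ∃ l, IsLine l ∧ (∀ p ∈ G.pts, p ∉ l) ∧ k ^ 2 ≤ G.met l) ∧
    ∃ l, IsLine l ∧ (∀ p ∈ G.pts, p ∉ l) ∧
      (1 - 1 / (2 * ((G.pts.card / k : ℕ) : ℝ) + 1) ^ 2) * (k : ℝ) ^ 2 ≤ (G.met l : ℝ) := by
  have hn := n_large G k he
  constructor
  · intro h
    have : ∃ m : ℕ, 1 ≤ m ∧
        (2 * (G.pts.card : ℤ) - m * (2 * k + 1)) ^ 2 < (4 * k + 3) * m ^ 2 + 10 * m := by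
      rcases h with h | h
      · rcases Nat.lt_or_ge G.pts.card 67 with h2 | h2
        · rcases small_cases k (by omega) G.pts.card h2 hn with h3 | ⟨m, hm, h3⟩
          · exact exists_m _ k hk h3
          · refine ⟨m, ?_, h3⟩
            simp only [List.mem_cons, List.not_mem_nil, or_false] at hm
            omega
        · apply exists_m _ k hk
          calc k ^ 3 ≤ 26 ^ 3 := Nat.pow_le_pow_left h 3
            _ ≤ 4 * 67 ^ 2 := by norm_num
            _ ≤ 4 * G.pts.card ^ 2 := Nat.mul_le_mul_left _ (Nat.pow_le_pow_left h2 2)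
      · exact exists_m _ k hk h
    obtain ⟨m, hm, hm2⟩ := this
    exact conj_of_m G k hk he m hm hm2
  · set q := G.pts.card / k with hq
    have hq1 : 1 ≤ q := by
      rw [hq]; exact Nat.div_pos (by omega) (by omega)
    -- choice of m
    obtain ⟨m, hm, hm1, hm2⟩ : ∃ m : ℕ, 1 ≤ m ∧ m ≤ q + 1 ∧
        (2 * (q : ℤ) + 1) * |(G.pts.card : ℤ) - m * k| ≤ m * k := by
      set ρ := G.pts.card % k with hρ
      have hdm : G.pts.card = k * q + ρ := (Nat.div_add_mod _ _).symm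
      have hρk : ρ < k := Nat.mod_lt _ (by omega)
      rcases le_or_gt ((2 * q + 1) * ρ) (q * k) with h | h
      · refine ⟨q, hq1, by omega, ?_⟩
        have : (G.pts.card : ℤ) - q * k = ρ := by rw [hdm]; push_cast; ring
        rw [this, abs_of_nonneg (by positivity)]
        exact_mod_cast h
      · refine ⟨q + 1, by omega, le_refl _, ?_⟩
        have : (G.pts.card : ℤ) - ((q + 1 : ℕ) : ℤ) * k = -((k : ℤ) - ρ) := by
          rw [hdm]; push_cast; ring
        rw [this, abs_neg, abs_of_nonneg (by have : (ρ : ℤ) < k := by exact_mod_cast hρk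
                                             linarith)]
        have h' : (q : ℤ) * k < (2 * q + 1) * ρ := by exact_mod_cast h
        push_cast
        nlinarith
    by_contra hcon
    -- the least bad integer
    set t : ℕ := ⌈(1 - 1 / (2 * (q : ℝ) + 1) ^ 2) * (k : ℝ) ^ 2⌉₊ with ht
    have hk1 : (1 : ℝ) ≤ k := by exact_mod_cast hk
    have hq1' : (1 : ℝ) ≤ q := by exact_mod_cast hq1
    have hcoef : 0 < (1 - 1 / (2 * (q : ℝ) + 1) ^ 2) := by
      have : (1 : ℝ) < (2 * (q : ℝ) + 1) ^ 2 := by nlinarith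
      have h2 : 1 / (2 * (q : ℝ) + 1) ^ 2 < 1 := by
        rw [div_lt_one (by positivity)]; exact this
      linarith
    have htpos : 1 ≤ t := by
      rw [ht, Nat.one_le_ceil_iff]; positivity
    have hnot : ¬ ∃ l, IsLine l ∧ (∀ p ∈ G.pts, p ∉ l) ∧ t ≤ G.met l := by
      rintro ⟨l, h1, h2, h3⟩
      exact hcon ⟨l, h1, h2, (Nat.ceil_le.1 h3)⟩
    have hst := star G (t - 1) (allLines_of G t htpos hnot) (by omega) m hm
    have htlt : ((t - 1 : ℕ) : ℝ) < (1 - 1 / (2 * (q : ℝ) + 1) ^ 2) * (k : ℝ) ^ 2 := by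
      have := Nat.ceil_lt_add_one (a := (1 - 1 / (2 * (q : ℝ) + 1) ^ 2) * (k : ℝ) ^ 2) (by positivity)
      rw [Nat.cast_sub htpos, ht]
      push_cast
      linarith
    set K := t - 1 with hK
    have hmn : m ≤ G.pts.card := by
      have h1 : q * k ≤ G.pts.card := Nat.div_mul_le_self _ _
      have h2 : q ≤ q * k := Nat.le_mul_of_pos_right _ (by omega)
      rcases Nat.lt_or_ge k 2 with hk2 | hk2
      · have : k = 1 := by omega
        subst this
        have : q = G.pts.card := by rw [hq, Nat.div_one]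
        -- here m = q is forced by the inequality
        by_contra hcon2
        push Not at hcon2
        have hmq : m = q + 1 := by omega
        rw [hmq, ← this] at hm2
        push_cast at hm2
        have e : (q : ℤ) - (q + 1) * 1 = -1 := by ring
        rw [e, abs_neg, abs_one] at hm2
        have : (1 : ℤ) ≤ q := by exact_mod_cast hq1
        linarith
      · have : q * 2 ≤ q * k := Nat.mul_le_mul_left _ hk2
        omega
    have hreal : (m : ℝ) ^ 2 * k ^ 2 ≤ m ^ 2 * K + ((G.pts.card : ℝ) - m * k) ^ 2 := by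
      have h1 : 4 * m * (G.pts.card * k + 1) + 2 * m * G.pts.card ≤
          2 * m ^ 2 * K + m * (m - 1) + 2 * G.pts.card ^ 2 :=
        le_trans (Nat.add_le_add_right (Nat.mul_le_mul_left _ he) _) hst
      have h2 : (m : ℝ) ≤ G.pts.card := by exact_mod_cast hmn
      have h3 : (1 : ℝ) ≤ m := by exact_mod_cast hm
      have h4 : (4 * m * (G.pts.card * k + 1) + 2 * m * G.pts.card : ℝ) ≤
          2 * m ^ 2 * K + m * (m - 1) + 2 * G.pts.card ^ 2 := by
        have := h1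
        zify [hm] at this
        exact_mod_cast this
      nlinarith
    have habs : ((2 * (q : ℝ) + 1) * ((G.pts.card : ℝ) - m * k)) ^ 2 ≤ (m * k) ^ 2 := by
      apply sq_le_sq'
      · have h5 : (2 * (q : ℤ) + 1) * (-((G.pts.card : ℤ) - m * k)) ≤ m * k :=
          le_trans (mul_le_mul_of_nonneg_left (neg_le_abs _) (by positivity)) hm2
        have h6 : (2 * (q : ℝ) + 1) * (-((G.pts.card : ℝ) - m * k)) ≤ m * k := by exact_mod_cast h5
        linarith
      · have h5 : (2 * (q : ℤ) + 1) * ((G.pts.card : ℤ) - m * k) ≤ m * k :=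
          le_trans (mul_le_mul_of_nonneg_left (le_abs_self _) (by positivity)) hm2
        exact_mod_cast h5
    have hm0 : (0 : ℝ) < m := by exact_mod_cast hm
    have hQ : (0 : ℝ) < (2 * (q : ℝ) + 1) ^ 2 := by positivity
    have hfin : ((G.pts.card : ℝ) - m * k) ^ 2 ≤ (m * k) ^ 2 / (2 * (q : ℝ) + 1) ^ 2 := by
      rw [le_div_iff₀ hQ]
      calc ((G.pts.card : ℝ) - m * k) ^ 2 * (2 * (q : ℝ) + 1) ^ 2 =
          ((2 * (q : ℝ) + 1) * ((G.pts.card : ℝ) - m * k)) ^ 2 := by ring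
        _ ≤ _ := habs
    have hcontra : (m : ℝ) ^ 2 * k ^ 2 < (m : ℝ) ^ 2 * k ^ 2 := by
      calc (m : ℝ) ^ 2 * k ^ 2 ≤ m ^ 2 * K + ((G.pts.card : ℝ) - m * k) ^ 2 := hreal
        _ ≤ m ^ 2 * K + (m * k) ^ 2 / (2 * (q : ℝ) + 1) ^ 2 := by linarith
        _ < m ^ 2 * ((1 - 1 / (2 * (q : ℝ) + 1) ^ 2) * (k : ℝ) ^ 2) +
            (m * k) ^ 2 / (2 * (q : ℝ) + 1) ^ 2 := by
            have := mul_lt_mul_of_pos_left htlt (pow_pos hm0 2)
            linarith
        _ = (m : ℝ) ^ 2 * k ^ 2 := by field_simp; ring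
    exact lt_irrefl _ hcontra

/-- the range of the two families of bounds together -/
theorem more (G : GeomGraph) (k : ℕ) (hk : 1 ≤ k) (he : G.pts.card * k < G.edges.card)
    (h : G.pts.card ≤ 165 ∨ k ≤ 46 ∨ (G.pts.card - 2 * k) ^ 4 ≤ G.pts.card ^ 3) :
    ∃ l, IsLine l ∧ (∀ p ∈ G.pts, p ∉ l) ∧ k ^ 2 ≤ G.met l := by
  by_contra hcon
  have hn := n_large G k he
  have hk2 : 1 ≤ k ^ 2 := Nat.one_le_pow _ _ hk
  have hall := allLines_of G (k ^ 2) hk2 hcon
  have h2e : 2 * G.edges.card + G.pts.card ≤ G.pts.card * G.pts.card := by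
    classical
    obtain ⟨t, ht⟩ := exists_shear G.pts
    have h1 := card_le_half G.pts G.edges (fun p => p.1 + t * p.2) ht G.edge_mem G.edge_ne
    have h2 := W_self_le (Adj G.edges) (Adj_self _ G.edge_ne) (Adj_le _) G.pts
    omega
  have hA := star G (k ^ 2 - 1) hall (by omega)
  have hB := Pool.Agent.Helper976.ELSS.second G.pts G.edges G.no_three_collinear G.edge_mem
    G.edge_ne (k ^ 2 - 1) hall (by omega)
  generalize G.pts.card = n at *
  generalize G.edges.card = e at *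
  refine Pool.Agent.Helper976.ELSS.exact_range n (n * k + 1) (k ^ 2 - 1) (by omega) ?_ ?_ ?_ ?_ ?_ ?_
  · have : n * 1 ≤ n * k := Nat.mul_le_mul_left _ hk
    omega
  · rw [Nat.mul_sub, mul_one]; omega
  · intro m hm
    refine le_trans (Nat.add_le_add_right (Nat.mul_le_mul_left _ he) _) (hA m hm)
  · intro m
    refine le_trans (Nat.add_le_add_right (Nat.mul_le_mul_left _ he) _) (hB m)
  · have h1 : (k ^ 2 - 1) * n ^ 2 ≤ k ^ 2 * n ^ 2 := Nat.mul_le_mul_right _ (Nat.sub_le _ _)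
    have h2 : (n * k + 1) ^ 2 = k ^ 2 * n ^ 2 + 2 * (n * k) + 1 := by ring
    omega
  · rcases h with h | h | h
    · exact Or.inl h
    · refine Or.inr (Or.inl ?_)
      have : n * k ≤ n * 46 := Nat.mul_le_mul_left _ h
      omega
    · refine Or.inr (Or.inr (Or.inr ?_))
      have h1 : n ^ 2 - 2 * (n * k + 1) ≤ n * (n - 2 * k) := by
        rw [Nat.mul_sub, pow_two]
        have : n * (2 * k) = 2 * (n * k) := by ring
        omega
      calc (n ^ 2 - 2 * (n * k + 1)) ^ 4 ≤ (n * (n - 2 * k)) ^ 4 := Nat.pow_le_pow_left h1 4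
        _ = n ^ 4 * (n - 2 * k) ^ 4 := by ring
        _ ≤ n ^ 4 * n ^ 3 := Nat.mul_le_mul_left _ h
        _ = n ^ 7 := by ring

/-- the constant `48/49` -/
theorem const (G : GeomGraph) (k : ℕ) (hk : 1 ≤ k) (he : G.pts.card * k < G.edges.card) :
    ∃ l, IsLine l ∧ (∀ p ∈ G.pts, p ∉ l) ∧ (48 / 49 : ℝ) * (k : ℝ) ^ 2 ≤ (G.met l : ℝ) := by
  by_contra hcon
  have hn := n_large G k he
  have hk1 : (1 : ℝ) ≤ k := by exact_mod_cast hk
  set t : ℕ := ⌈(48 / 49 : ℝ) * (k : ℝ) ^ 2⌉₊ with ht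
  have htpos : 1 ≤ t := by
    rw [ht, Nat.one_le_ceil_iff]; positivity
  have hnot : ¬ ∃ l, IsLine l ∧ (∀ p ∈ G.pts, p ∉ l) ∧ t ≤ G.met l := by
    rintro ⟨l, h1, h2, h3⟩
    exact hcon ⟨l, h1, h2, (Nat.ceil_le.1 h3)⟩
  have hall := allLines_of G t htpos hnot
  have h2e : 2 * G.edges.card + G.pts.card ≤ G.pts.card * G.pts.card := by
    classical
    obtain ⟨t, ht⟩ := exists_shear G.pts
    have h1 := card_le_half G.pts G.edges (fun p => p.1 + t * p.2) ht G.edge_mem G.edge_ne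
    have h2 := W_self_le (Adj G.edges) (Adj_self _ G.edge_ne) (Adj_le _) G.pts
    omega
  have hA := star G (t - 1) hall (by omega)
  have hB := Pool.Agent.Helper976.ELSS.second G.pts G.edges G.no_three_collinear G.edge_mem
    G.edge_ne (t - 1) hall (by omega)
  have htlt : ((t - 1 : ℕ) : ℝ) < (48 / 49 : ℝ) * (k : ℝ) ^ 2 := by
    have := Nat.ceil_lt_add_one (a := (48 / 49 : ℝ) * (k : ℝ) ^ 2) (by positivity)
    rw [Nat.cast_sub htpos, ht]
    push_cast
    linarith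
  generalize G.pts.card = n at *
  generalize G.edges.card = e at *
  have hf := Pool.Agent.Helper976.ELSS.factor2 n e (t - 1) (by omega) (by nlinarith)
    (by rw [Nat.mul_sub, mul_one]; omega) hA hB
  have hn0 : (0 : ℝ) < n := by exact_mod_cast (by omega : 0 < n)
  have hx : (k : ℝ) ≤ (e : ℝ) / n := by
    rw [le_div_iff₀ hn0]
    have : (n : ℝ) * k ≤ e := by exact_mod_cast he.le
    linarith
  have h2 : (k : ℝ) ^ 2 ≤ ((e : ℝ) / n) ^ 2 := pow_le_pow_left₀ (by positivity) hx 2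
  linarith

/-- **Main theorem.** -/
theorem result (G : GeomGraph) (k : ℕ) (hk : 1 ≤ k) (he : G.pts.card * k < G.edges.card) :
    (G.pts.card ≤ 165 ∨ k ≤ 46 ∨ k ^ 3 ≤ 4 * G.pts.card ^ 2 ∨
        (G.pts.card - 2 * k) ^ 4 ≤ G.pts.card ^ 3 →
      ∃ l, IsLine l ∧ (∀ p ∈ G.pts, p ∉ l) ∧ k ^ 2 ≤ G.met l) ∧
    (∃ l, IsLine l ∧ (∀ p ∈ G.pts, p ∉ l) ∧
      (1 - 1 / (2 * ((G.pts.card / k : ℕ) : ℝ) + 1) ^ 2) * (k : ℝ) ^ 2 ≤ (G.met l : ℝ)) ∧
    ∃ l, IsLine l ∧ (∀ p ∈ G.pts, p ∉ l) ∧ (48 / 49 : ℝ) * (k : ℝ) ^ 2 ≤ (G.met l : ℝ) := by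
  obtain ⟨h1, h2⟩ := main_aux G k hk he
  refine ⟨fun h => ?_, h2, const G k hk he⟩
  rcases h with h | h | h | h
  · exact more G k hk he (Or.inl h)
  · exact more G k hk he (Or.inr (Or.inl h))
  · exact h1 (Or.inr h)
  · exact more G k hk he (Or.inr (Or.inr h))

end Pool.Agent.Results.MP_62448f_co.SharperCrossings
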